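import Mathlib
import Pool.Agent.Helper31K9.SymTreeF

set_option autoImplicit false

/-!
# Q1: the graph `G_{n,k}` has a spanning tree of maximum degree at most `12`

For all `n` and `k` with `n + 3 ≤ 2 k` and `3 k + 1 ≤ 2 n` the graph `G_{n,k}` has a spanning tree
of maximum degree at most `12`.  In particular, for every `t > 0` and `k(n) = ⌊n/2 + t √n⌋`,
`τ(G_{n,k(n)}) / √n → 0`.

Idea.  Let `f = 2 k - n` and `e = n - k`.  A set `y` of size `k`, read as a word, is
`D₀ ) D₁ ) ⋯ ) D_s ( D_{s+1} ( ⋯ ( D_{2s+f}` with balanced words `D_i`; the words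
`D_s, …, D_{s+f}` are the slots of `y`.  The neighbours of `y` above it are obtained by opening a
prime of a slot, `A(B)C → A ( B ( C`, or by turning the last unmatched `)` into `(`.  The subgraph
formed by (1) all edges of the last kind, (2) the edges which open the first or the last prime of
one of the first four slots, (3) if `s = 0`, the edges which open the first or the last prime of
the first nonempty slot after the fourth, if this slot contains at least two pairs, and (4) if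
`s = 0`, the first four slots are empty and the first nonempty slot is `()`, one edge which opens
a prime in a later slot, chosen with Hall's theorem in such a way that every set of size `k + 1`
is chosen at most twice, is connected and has maximum degree at most `12`.
-/

namespace Pool.Agent.Results.MP_ec2aec_co.LowDegreeTrees

open Pool.Agent.Helper31K9.SymTree Filter Topology

/-- The vertices of `G_{n,k}`. -/
abbrev Vtx (n k : ℕ) := {x : Finset (Fin n) // x.card = k ∨ x.card = k + 1}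

/-- The graph `G_{n,k}`: a `k`-set `y` and a `(k+1)`-set `x` are adjacent iff `y ≺ x`. -/
def G (n k : ℕ) : SimpleGraph (Vtx n k) where
  Adj v w := (v.1.card = k ∧ w.1.card = k + 1 ∧ Prec v.1 w.1) ∨
    (w.1.card = k ∧ v.1.card = k + 1 ∧ Prec w.1 v.1)
  symm := ⟨fun _ _ h => h.symm⟩
  loopless := ⟨fun v h => by rcases h with h | h <;> omega⟩

/-- The minimum of the maximum degree over all spanning trees (`⊤` if there is none). -/
noncomputable def tau {V : Type} (G : SimpleGraph V) : ℕ∞ :=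
  ⨅ T ∈ {T : SimpleGraph V | T ≤ G ∧ T.IsTree}, ⨆ v, (T.neighborSet v).encard

/-- `k(n) = ⌊n/2 + t √n⌋`. -/
noncomputable def kk (t : ℝ) (n : ℕ) : ℕ := ⌊(n : ℝ) / 2 + t * √(n : ℝ)⌋₊

theorem card_x {f e : ℕ} {x : Rep} (h : IsX f e x) :
    (toSet (f + 2 * e) (rword x)).card = f + e + 1 := by
  have h1 := card_toSet (isX_length h)
  have h2 := isX_wh h
  rw [h2] at h1
  push_cast at h1
  omega

theorem card_y {f e : ℕ} {y : Rep} (h : IsY f e y) :
    (toSet (f + 2 * e) (rword y)).card = f + e := by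
  have h1 := card_toSet (isY_length h)
  have h2 := isY_wh h
  rw [h2] at h1
  push_cast at h1
  omega

theorem he_prec {f e : ℕ} {τ : List F → List F × Fin 2} (hτ : TauSpec f e τ) {x y : Rep}
    (h : HE f e τ x y) :
    Prec (toSet (f + 2 * e) (rword y)) (toSet (f + 2 * e) (rword x)) := by
  obtain ⟨hx, hy, hE⟩ := h
  cases hE with
  | ends h => exact ends_prec rfl h hx
  | near L U A B C V R _ _ => exact mid_prec rfl (Mid.mk L U A B C V R) hx
  | far U a A B C V _ _ _ => exact mid_prec rfl (Mid.mk _ _ _ _ _ _ _) hx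
  | bad a V =>
    obtain ⟨l1, t1⟩ := bad_len hy
    obtain ⟨U, A, B, C, W, hV, hV'⟩ := hτ.1 V l1 t1
    have e1 : List.replicate (4 + a) F.nil ++ F.cons .nil .nil :: (τ V).1
        = (List.replicate (4 + a) F.nil ++ F.cons .nil .nil :: U) ++ A :: B :: C :: W := by
      rw [hV']; simp
    have e2 : List.replicate (4 + a) F.nil ++ F.cons .nil .nil :: V
        = (List.replicate (4 + a) F.nil ++ F.cons .nil .nil :: U)
            ++ F.app A (F.cons B C) :: W := by
      rw [hV]; simp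
    rw [e1] at hx ⊢
    rw [e2]
    exact mid_prec rfl (Mid.mk _ _ _ _ _ _ _) hx

/-- A representation of a vertex. -/
def vt {f e : ℕ} (r : Rep) (h : IsX f e r ∨ IsY f e r) : Vtx (f + 2 * e) (f + e) :=
  ⟨toSet (f + 2 * e) (rword r), h.elim (fun h => Or.inr (card_x h)) (fun h => Or.inl (card_y h))⟩

/-- The bounded degree subgraph. -/
def H (f e : ℕ) (τ : List F → List F × Fin 2) : SimpleGraph (Vtx (f + 2 * e) (f + e)) where
  Adj v w := ∃ x y, HE f e τ x y ∧
    ((toSet (f + 2 * e) (rword x) = v.1 ∧ toSet (f + 2 * e) (rword y) = w.1) ∨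
      (toSet (f + 2 * e) (rword x) = w.1 ∧ toSet (f + 2 * e) (rword y) = v.1))
  symm := ⟨fun _ _ ⟨x, y, h, h'⟩ => ⟨x, y, h, h'.symm⟩⟩
  loopless := ⟨fun v ⟨x, y, h, h'⟩ => by
    have h1 := card_x h.1
    have h2 := card_y h.2.1
    rcases h' with ⟨a, b⟩ | ⟨a, b⟩ <;> rw [a] at h1 <;> rw [b] at h2 <;> omega⟩

theorem H_le {f e : ℕ} {τ : List F → List F × Fin 2} (hτ : TauSpec f e τ) :
    H f e τ ≤ G (f + 2 * e) (f + e) := by
  rintro v w ⟨x, y, h, ⟨a, b⟩ | ⟨a, b⟩⟩
  · right
    rw [← a, ← b]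
    exact ⟨card_y h.2.1, card_x h.1, he_prec hτ h⟩
  · left
    rw [← a, ← b]
    exact ⟨card_y h.2.1, card_x h.1, he_prec hτ h⟩

theorem exists_rep {f e : ℕ} (v : Vtx (f + 2 * e) (f + e)) :
    ∃ (r : Rep) (h : IsX f e r ∨ IsY f e r), vt r h = v := by
  obtain ⟨w, hw, hw'⟩ := exists_toSet v.1
  have hc := card_toSet hw
  rw [hw'] at hc
  rcases v.2 with h | h
  · have hwh : wh w = (f : ℤ) := by rw [h] at hc; push_cast at hc; omega
    obtain ⟨⟨L, M, R⟩, hr, hr'⟩ := exists_rword w hwh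
    have hlen := rword_length hr
    have hY : IsY f e (L, M, R) := ⟨hr.1, hr.2, by rw [hr', hw] at hlen; omega⟩
    exact ⟨(L, M, R), Or.inr hY, Subtype.ext (by simp only [vt]; rw [hr', hw'])⟩
  · have hwh : wh w = ((f + 2 : ℕ) : ℤ) := by rw [h] at hc; push_cast at hc ⊢; omega
    obtain ⟨⟨L, M, R⟩, hr, hr'⟩ := exists_rword w hwh
    have hlen := rword_length hr
    have hX : IsX f e (L, M, R) := ⟨hr.1, hr.2, by rw [hr', hw] at hlen; omega⟩
    exact ⟨(L, M, R), Or.inl hX, Subtype.ext (by simp only [vt]; rw [hr', hw'])⟩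

theorem conn_reach {f e : ℕ} {τ : List F → List F × Fin 2} {r r' : Rep} (h : Conn f e τ r r') :
    ((IsX f e r ∨ IsY f e r) ↔ (IsX f e r' ∨ IsY f e r')) ∧
      ∀ (hr : IsX f e r ∨ IsY f e r) (hr' : IsX f e r' ∨ IsY f e r'),
        (H f e τ).Reachable (vt r hr) (vt r' hr') := by
  induction h with
  | rel x y h =>
    refine ⟨⟨fun _ => Or.inr h.2.1, fun _ => Or.inl h.1⟩, fun hr hr' => ?_⟩
    apply SimpleGraph.Adj.reachable
    exact ⟨x, y, h, Or.inl ⟨rfl, rfl⟩⟩
  | refl x => exact ⟨Iff.rfl, fun _ _ => SimpleGraph.Reachable.refl _⟩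
  | symm x y _ ih => exact ⟨ih.1.symm, fun hr hr' => (ih.2 hr' hr).symm⟩
  | trans x y z _ _ ih1 ih2 =>
    refine ⟨ih1.1.trans ih2.1, fun hr hr' => ?_⟩
    exact (ih1.2 hr (ih1.1.1 hr)).trans (ih2.2 _ hr')

theorem H_connected {f e : ℕ} {τ : List F → List F × Fin 2} (hτ : TauSpec f e τ) (hf : 3 ≤ f) :
    (H f e τ).Connected := by
  have hroot : IsY f e (root f e) := by
    simp [IsY, root]
  rw [SimpleGraph.connected_iff_exists_forall_reachable]
  refine ⟨vt (root f e) (Or.inr hroot), fun w => ?_⟩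
  obtain ⟨r, hr, rfl⟩ := exists_rep w
  have hc : Conn f e τ r (root f e) := by
    rcases hr with h | h
    · exact x_to_root hτ hf r h
    · obtain ⟨L, M, R⟩ := r
      exact y_to_root hτ hf _ L M R rfl h
  exact ((conn_reach hc).2 hr (Or.inr hroot)).symm

theorem H_degree {f e : ℕ} {τ : List F → List F × Fin 2} (hτ : TauSpec f e τ)
    (v : Vtx (f + 2 * e) (f + e)) : ((H f e τ).neighborSet v).encard ≤ 12 := by
  classical
  have key : ∀ l : List Rep, l.length ≤ 12 →
      (∀ w ∈ (H f e τ).neighborSet v, ∃ r ∈ l, toSet (f + 2 * e) (rword r) = w.1) →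
      ((H f e τ).neighborSet v).encard ≤ 12 := by
    intro l hl h
    have h1 : Subtype.val '' ((H f e τ).neighborSet v) ⊆
        ((l.map (fun r => toSet (f + 2 * e) (rword r))).toFinset : Set (Finset (Fin _))) := by
      rintro _ ⟨w, hw, rfl⟩
      obtain ⟨r, hr, he⟩ := h w hw
      simp only [List.coe_toFinset, List.mem_map]
      show ∃ a ∈ l, toSet (f + 2 * e) (rword a) = w.1
      exact ⟨r, hr, he⟩
    rw [← Subtype.val_injective.encard_image]
    refine (Set.encard_le_encard h1).trans ?_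
    rw [Set.encard_coe_eq_coe_finsetCard]
    have h2 := List.toFinset_card_le (l.map (fun r => toSet (f + 2 * e) (rword r)))
    rw [List.length_map] at h2
    exact_mod_cast h2.trans hl
  obtain ⟨r, hr, hv⟩ := exists_rep v
  have hv' : toSet (f + 2 * e) (rword r) = v.1 := by rw [← hv]; rfl
  rcases hr with h | h
  · -- `r` is an `x`
    apply key (candX f e τ r) (by simp [candX])
    rintro w ⟨x, y, hE, ⟨a, b⟩ | ⟨a, b⟩⟩
    · have hxr : x = r := by
        apply rword_inj (isX_isR hE.1) (isX_isR h)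
        apply toSet_inj (isX_length hE.1) (isX_length h)
        rw [a, hv']
      subst hxr
      exact ⟨y, mem_candX hτ hE, b⟩
    · exfalso
      have h1 := card_y hE.2.1
      have h2 := card_x h
      rw [b, ← hv'] at h1
      omega
  · apply key (candY τ r) (by simp [candY])
    rintro w ⟨x, y, hE, ⟨a, b⟩ | ⟨a, b⟩⟩
    · exfalso
      have h1 := card_x hE.1
      have h2 := card_y h
      rw [a, ← hv'] at h1
      omega
    · have hyr : y = r := by
        apply rword_inj (isY_isR hE.2.1) (isY_isR h)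
        apply toSet_inj (isY_length hE.2.1) (isY_length h)
        rw [b, hv']
      subst hyr
      exact ⟨x, mem_candY hE, a⟩

theorem main_fe (f e : ℕ) (hf : 3 ≤ f) (he : f + 1 ≤ e) : tau (G (f + 2 * e) (f + e)) ≤ 12 := by
  obtain ⟨τ, h1, h2⟩ := exists_tau f (e - 1) (by omega)
  have hτ : TauSpec f e τ :=
    ⟨fun V a b => h1 V a (by omega) (by omega),
      fun V V' a b a' b' => h2 V V' a (by omega) a' (by omega)⟩
  obtain ⟨T, hT, hT'⟩ := (H_connected hτ hf).exists_isTree_le
  refine (iInf₂_le T ⟨hT.trans (H_le hτ), hT'⟩).trans ?_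
  refine iSup_le fun v => ?_
  refine (Set.encard_le_encard ?_).trans (H_degree hτ v)
  intro w hw
  exact hT hw

theorem main_nk (n k : ℕ) (h1 : n + 3 ≤ 2 * k) (h2 : 3 * k + 1 ≤ 2 * n) : tau (G n k) ≤ 12 := by
  obtain ⟨f, hf⟩ : ∃ f, 2 * k = n + f := ⟨2 * k - n, by omega⟩
  obtain ⟨e, he⟩ : ∃ e, n = k + e := ⟨n - k, by omega⟩
  have hn : n = f + 2 * e := by omega
  have hk : k = f + e := by omega
  subst hn hk
  exact main_fe f e (by omega) (by omega)

theorem kk_range (t : ℝ) (ht : 0 < t) : ∀ᶠ n : ℕ in atTop, n + 3 ≤ 2 * kk t n ∧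
    3 * kk t n + 1 ≤ 2 * n := by
  have hs : Tendsto (fun n : ℕ => √(n : ℝ)) atTop atTop :=
    Real.tendsto_sqrt_atTop.comp tendsto_natCast_atTop_atTop
  have h1 := hs.eventually_ge_atTop (5 / (2 * t))
  have h2 := hs.eventually_ge_atTop (6 * t + 2)
  filter_upwards [h1, h2] with n h1 h2
  have hn : √(n : ℝ) * √(n : ℝ) = n := Real.mul_self_sqrt (Nat.cast_nonneg n)
  have hpos : 0 ≤ √(n : ℝ) := Real.sqrt_nonneg _
  have hfl1 : (n : ℝ) / 2 + t * √(n : ℝ) < kk t n + 1 := Nat.lt_floor_add_one _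
  have hfl2 : (kk t n : ℝ) ≤ (n : ℝ) / 2 + t * √(n : ℝ) := Nat.floor_le (by positivity)
  constructor
  · have h3 : 5 / 2 ≤ t * √(n : ℝ) := by
      have := mul_le_mul_of_nonneg_left h1 ht.le
      have e1 : t * (5 / (2 * t)) = 5 / 2 := by field_simp
      linarith
    have h4 : (n : ℝ) + 3 ≤ 2 * kk t n := by linarith
    exact_mod_cast h4
  · have h3 : 3 * t * √(n : ℝ) + 1 ≤ (n : ℝ) / 2 := by
      have h4 : (6 * t + 2) * √(n : ℝ) ≤ √(n : ℝ) * √(n : ℝ) :=
        mul_le_mul_of_nonneg_right h2 hpos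
      have h5 : (1 : ℝ) ≤ √(n : ℝ) := by linarith
      nlinarith
    have h4 : (3 : ℝ) * kk t n + 1 ≤ 2 * n := by linarith
    exact_mod_cast h4

/-- **Q1 (yes).**  For all `n`, `k` with `n + 3 ≤ 2 k` and `3 k + 1 ≤ 2 n` the graph `G_{n,k}` has a
spanning tree of maximum degree at most `12`; and for every `t > 0`, with `k(n) = ⌊n/2 + t √n⌋`,
`τ(G_{n,k(n)}) / √n → 0` (and `n/2 ≤ k(n) < n` for all large `n`). -/
theorem result :
    (∀ n k : ℕ, n + 3 ≤ 2 * k → 3 * k + 1 ≤ 2 * n → tau (G n k) ≤ 12) ∧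
    ∀ t : ℝ, 0 < t → (∀ᶠ n : ℕ in atTop, n ≤ 2 * kk t n ∧ kk t n < n) ∧
      Tendsto (fun n : ℕ => ((tau (G n (kk t n)) : ℕ∞) : ENNReal) / ENNReal.ofReal (√(n : ℝ)))
        atTop (𝓝 0) := by
  refine ⟨main_nk, fun t ht => ?_⟩
  have hr := kk_range t ht
  refine ⟨by filter_upwards [hr] with n hn; omega, ?_⟩
  have hs : Tendsto (fun n : ℕ => √(n : ℝ)) atTop atTop :=
    Real.tendsto_sqrt_atTop.comp tendsto_natCast_atTop_atTop
  have h1 : Tendsto (fun n : ℕ => ENNReal.ofReal (√(n : ℝ))) atTop (𝓝 ⊤) :=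
    ENNReal.tendsto_ofReal_atTop.comp hs
  have h2 : Tendsto (fun n : ℕ => (12 : ENNReal) / ENNReal.ofReal (√(n : ℝ))) atTop (𝓝 0) := by
    have := ENNReal.Tendsto.const_div (a := 12) h1 (Or.inr (by norm_num))
    simpa using this
  refine tendsto_of_tendsto_of_tendsto_of_le_of_le' tendsto_const_nhds h2
    (Eventually.of_forall fun _ => bot_le) ?_
  filter_upwards [hr] with n hn
  apply ENNReal.div_le_div_right
  have := main_nk n (kk t n) hn.1 hn.2
  calc ((tau (G n (kk t n)) : ℕ∞) : ENNReal) ≤ ((12 : ℕ∞) : ENNReal) :=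
        ENat.toENNReal_le.2 this
    _ = 12 := by norm_num

end Pool.Agent.Results.MP_ec2aec_co.LowDegreeTrees
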